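import Pool.Agent.R948.UBd

/-!
# MP_13bc7b_nt: the Morton–Silverman conjecture and powers of the degree

`UBCdeg d` is the Morton–Silverman conjecture for endomorphisms of degree `d` of projective spaces
of all dimensions over all number fields (the frozen statement `S16101` with `d` fixed, the
constant depending on the degree of the field and on the dimension only), and `MortonSilverman` is
`S16101` word for word.

* (1) if `d ^ a = e ^ b` with `a, b > 0`, then the conjecture in degree `d` is equivalent to the
  conjecture in degree `e`;
* (2) the full conjecture is equivalent to the conjecture for the degrees `d ≥ 2` which are not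
  perfect powers;
* (3) the geometric reason: for given `N, s, d` there are one projective space `P^M` and one
  coordinate linear subspace `P^N ⊆ P^M` such that over every infinite field every endomorphism of
  degree `d ^ s` of `P^N` is the restriction of the `s`-th iterate of an endomorphism of degree `d`
  of `P^M`.
-/

set_option autoImplicit false

namespace Pool.Agent.Results.MP_13bc7b_nt.DegreePowers

open MvPolynomial Pool.Agent.R948.UB

theorem result :
    (∀ d e a b : ℕ, 2 ≤ d → 2 ≤ e → 0 < a → 0 < b → d ^ a = e ^ b → (UBCdeg d ↔ UBCdeg e)) ∧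
    (MortonSilverman ↔ ∀ d : ℕ, 2 ≤ d → (∀ b a : ℕ, 2 ≤ a → d ≠ b ^ a) → UBCdeg d) ∧
    (∀ N s d : ℕ, 2 ≤ d → 0 < s →
      ∃ (M : ℕ) (e : Fin (N + 1) ↪ Fin (M + 1)), ∀ (k : Type) [Field k] [Infinite k]
        (f : Fin (N + 1) → MvPolynomial (Fin (N + 1)) k),
        (∀ i, (f i).IsHomogeneous (d ^ s)) →
        (∀ x : Fin (N + 1) → AlgebraicClosure k, (∀ i, aeval x (f i) = 0) → x = 0) →
        ∃ G : Fin (M + 1) → MvPolynomial (Fin (M + 1)) k, (∀ i, (G i).IsHomogeneous d) ∧
          (∀ z : Fin (M + 1) → AlgebraicClosure k, (∀ i, aeval z (G i) = 0) → z = 0) ∧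
          ∀ x : Fin (N + 1) → k,
            (fun v : Fin (M + 1) → k => fun i => eval v (G i))^[s] (Function.extend e x 0) =
              Function.extend e (fun i => eval x (f i)) 0) :=
  ⟨fun _ _ _ _ hd he ha hb h => UBCdeg_iff_of_pow_eq hd he ha hb h, mortonSilverman_iff,
    fun N s d hd hs => exists_root N s d hd hs⟩

end Pool.Agent.Results.MP_13bc7b_nt.DegreePowers
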