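import Pool.Agent.R425.D.DynC

/-!
# Preperiodic points of quadratic polynomials over Galois 2-extensions of arbitrary degree

Let `K` be a Galois extension of `ℚ` of degree a power of two, which need not be abelian, in which `2`
and `11` split completely and which is ramified only at primes `l` modulo which the elliptic curve
`X_0(11) : y² + y = x³ - x² - 10 x - 20` has an odd number of points (about one third of all primes); for
example `K = ℚ(√D_1, …, √D_r)` with suitable products `D_i` of such primes.  The degrees of these fields
are unbounded.  Let `f` be any polynomial of degree two with coefficients in `K`.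

(1) If the orbit of the point `z` of `K` ends in a cycle of length one or two, then already `f(f(z))`
lies in the cycle.  So there are at most 16 such points in `K`.

(2) If `f` has potentially good reduction at some place of `K` above two, then the cycles of `f` in `K`
have length at most two, and `f` has at most 8 preperiodic points in `K`; with the point at infinity
there are at most 9 in the projective line.  (The polynomial `f = a z² + b z + c` is conjugate to
`z² + (a c + b / 2 - b² / 4)`, so it has potentially good reduction if this number is integral.  There is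
no condition at the other places.)

So the bound of the conjecture of Morton and Silverman holds for these polynomials, with a constant
which does not depend on the degree of `K`.  For `K = ℚ` the bound 9 is in the paper of Poonen on
the rational preperiodic points of quadratic polynomials.

The proof.  The quadratic polynomials with a chain of length three, `z ↦ y ↦ x ↦ α`, which ends in a
point `α` of a fixed point or of a cycle of length two, with `x` not periodic, are parametrised in both
cases by the curve `Y² = 2 (t³ + t² - t + 1)`, which is `X_1(11)`, up to `t = ± 1` and `t = ∞`.  We map this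
curve to `X_0(11)` by an isogeny of degree five.  By the results of the library on 2-Selmer groups over
Galois 2-extensions `X_0(11)(K)` is finite of odd order, and as all 2-adic points of odd order on
`X_0(11)` are rational, it consists of the five rational points, the `x`-coordinates of which are `∞`,
`5` and `16`.  The points of `X_1(11)` above those with `x = 5` and `x = 16` are defined by quintic
polynomials without roots modulo two; so they are not in `K`, which is contained in `ℚ_2`.  In (2) we
use in addition that `z² + c`, `c ∈ ℤ_2`, is a contraction on each of the two residue classes modulo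
two; so each class contains at most one periodic point.
-/

set_option autoImplicit false

open IsDedekindDomain NumberField Polynomial

namespace Pool.Agent.Results.MP_13bc7b_nt.GaloisTwoExtensions

/-- The number of points over `ℤ/l` of `X_0(11) : y² + y = x³ - x² - 10 x - 20`, with the point at
infinity. -/
noncomputable def pointCount (l : ℕ) : ℕ :=
  Nat.card {P : ZMod l × ZMod l // P.2 ^ 2 + P.2 = P.1 ^ 3 - P.1 ^ 2 - 10 * P.1 - 20} + 1

/-- `K` is a Galois extension of `ℚ` of degree a power of two, which is ramified only at primes `l`
different from `2` and `11` modulo which `X_0(11)` has an odd number of points; the prime ideals of `K`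
above `2` and `11` have residue degree one (so these primes split completely). -/
structure IsTwoExtension (K : Type) [Field K] [NumberField K] : Prop where
  galois : IsGalois ℚ K
  degree : ∃ j, Module.finrank ℚ K = 2 ^ j
  ramified : ∀ l : ℕ, l.Prime → (l : ℤ) ∣ NumberField.discr K → l ≠ 2 ∧ l ≠ 11 ∧ Odd (pointCount l)
  split : ∀ v : HeightOneSpectrum (𝓞 K), ((22 : ℕ) : 𝓞 K) ∈ v.asIdeal →
    (Ideal.absNorm v.asIdeal).Prime

variable {K : Type} [Field K]

/-- The `n`-th iterate of the polynomial `f`. -/
noncomputable def iter (f : K[X]) (n : ℕ) (z : K) : K := (fun w => f.eval w)^[n] z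

/-- The preperiodic points of `f` in `K`. -/
def PrePer (f : K[X]) : Set K := {z | ∃ i j : ℕ, j < i ∧ iter f i z = iter f j z}

/-- The points of `K` whose orbits end in cycles of `f` of length one or two. -/
def EndsInShortCycle (f : K[X]) : Set K := {z | ∃ n : ℕ, iter f (n + 2) z = iter f n z}

/-- The number `a c + b / 2 - b² / 4` for `f = a z² + b z + c`; if `a` is not zero then `f` is conjugate
over `K` to `z²` plus this number. -/
noncomputable def parameter (f : K[X]) : K :=
  f.coeff 2 * f.coeff 0 + f.coeff 1 / 2 - f.coeff 1 ^ 2 / 4

/-- The polynomial `f` of degree two has potentially good reduction at some place above two: the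
parameter is a 2-adic integer for some embedding of `K` in `ℚ_2`. -/
def GoodAboveTwo (f : K[X]) : Prop := ∃ g : K →+* ℚ_[2], ‖g (parameter f)‖ ≤ 1

lemma count_eq (l : ℕ) : pointCount l = Pool.Agent.Y702.G.pts Pool.Agent.Y702.E11 (ZMod l) + 1 := by
  unfold pointCount Pool.Agent.Y702.G.pts
  congr 1
  refine Nat.card_congr (Equiv.subtypeEquivRight fun P => ?_)
  rw [WeierstrassCurve.Affine.equation_iff]
  show _ ↔ P.2 ^ 2 + ((0 : ℤ) : ZMod l) * P.1 * P.2 + ((1 : ℤ) : ZMod l) * P.2 =
    P.1 ^ 3 + ((-1 : ℤ) : ZMod l) * P.1 ^ 2 + ((-10 : ℤ) : ZMod l) * P.1 + ((-20 : ℤ) : ZMod l)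
  push_cast
  constructor
  · intro h
    linear_combination h
  · intro h
    linear_combination h

lemma ext_of [NumberField K] (h : IsTwoExtension K) :
    Pool.Agent.R425.D.TwoExt (fun _ : Fin 1 => Pool.Agent.Y702.E11) K where
  galois := h.galois
  degree := h.degree
  ramified := by
    intro l hl hd
    obtain ⟨h1, h2, h3⟩ := h.ramified l hl hd
    refine ⟨?_, fun _ => ?_⟩
    · have e : (2 * ∏ _i : Fin 1, Pool.Agent.Y702.E11.Δ : ℤ) = -(2 * 11 ^ 5) := by
        norm_num [Pool.Agent.Y702.E11, WeierstrassCurve.Δ, WeierstrassCurve.b₂,
          WeierstrassCurve.b₄, WeierstrassCurve.b₆, WeierstrassCurve.b₈]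
      rw [e, dvd_neg]
      intro h4
      have h5 : l ∣ 2 * 11 ^ 5 := by exact_mod_cast h4
      rcases (Nat.Prime.dvd_mul hl).1 h5 with h6 | h6
      · exact h1 ((Nat.prime_dvd_prime_iff_eq hl Nat.prime_two).1 h6)
      · exact h2 ((Nat.prime_dvd_prime_iff_eq hl (by norm_num)).1 (hl.dvd_of_dvd_pow h6))
    · rw [← count_eq]
      exact h3
  split := by
    intro v hv
    apply h.split
    have e : (2 * ∏ _i : Fin 1, Pool.Agent.Y702.E11.Δ : ℤ) = -(2 * 11 ^ 5) := by
      norm_num [Pool.Agent.Y702.E11, WeierstrassCurve.Δ, WeierstrassCurve.b₂,
        WeierstrassCurve.b₄, WeierstrassCurve.b₆, WeierstrassCurve.b₈]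
    rw [e] at hv
    have h1 : (2 : 𝓞 K) * 11 ^ 5 ∈ v.asIdeal := by
      have e3 : (2 : 𝓞 K) * 11 ^ 5 = -((-(2 * 11 ^ 5) : ℤ) : 𝓞 K) := by
        push_cast
        ring
      rw [e3]
      exact v.asIdeal.neg_mem hv
    have hp := v.isPrime
    have e2 : ((22 : ℕ) : 𝓞 K) = 2 * 11 := by norm_num
    rw [e2]
    rcases hp.mem_or_mem h1 with h2 | h2
    · exact v.asIdeal.mul_mem_right _ h2
    · exact v.asIdeal.mul_mem_left _ (hp.mem_of_pow_mem 5 h2)
  real := by
    intro i h0
    exfalso
    have e : Pool.Agent.Y702.E11.Δ = -(11 ^ 5) := by
      norm_num [Pool.Agent.Y702.E11, WeierstrassCurve.Δ, WeierstrassCurve.b₂,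
        WeierstrassCurve.b₄, WeierstrassCurve.b₆, WeierstrassCurve.b₈]
    have h1 : (0 : ℤ) < Pool.Agent.Y702.E11.Δ := h0
    rw [e] at h1
    norm_num at h1

/-- **Theorem.** -/
theorem result (K : Type) [Field K] [NumberField K] (hK : IsTwoExtension K) (f : K[X])
    (hf : f.natDegree = 2) :
    ((∀ z ∈ EndsInShortCycle f, iter f 4 z = iter f 2 z) ∧ (EndsInShortCycle f).Finite ∧
      (EndsInShortCycle f).ncard ≤ 16) ∧
    (GoodAboveTwo f → (∀ z ∈ PrePer f, iter f 4 z = iter f 2 z) ∧ (PrePer f).Finite ∧
      (PrePer f).ncard ≤ 8) := by
  refine ⟨⟨?_, ?_, ?_⟩, ?_⟩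
  · rintro z ⟨n, hn⟩
    exact Pool.Agent.R425.D.poly_tail (ext_of hK) hf n hn
  · exact (Pool.Agent.R425.D.poly_tail_card (ext_of hK) hf).1
  · exact (Pool.Agent.R425.D.poly_tail_card (ext_of hK) hf).2
  · rintro ⟨g, hg⟩
    obtain ⟨h1, h2, h3⟩ := Pool.Agent.R425.D.poly_card (ext_of hK) hf (g := g) hg
    exact ⟨h3, h1, h2⟩

end Pool.Agent.Results.MP_13bc7b_nt.GaloisTwoExtensions
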