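import Pool.Agent.R414.EA.Fin

/-!
# The number of endomorphisms of `P^N` with at least `k` preperiodic points of bounded degree

For all `N, D, k ≥ 1` and all `d ≥ d₀(N, D, k)`: the number of the systems of `N + 1` integral forms
of degree `d` in `N + 1` variables with coefficients of absolute value at most `H` which define
endomorphisms of `P^N` with at least `k` preperiodic points of degree at most `D` over `ℚ` has the
exact order of magnitude `H^(Q - k N)`, where `Q = (N + 1) (N + d choose N)` is the number of the
coefficients. So every further preperiodic point costs a factor `H^N`, and for every `A` all but a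
proportion `O(H^(-A))` of all systems which define endomorphisms have fewer than `A / N + 1`
preperiodic points of degree at most `D`, for all large `d`.

Proof. Some point of the orbits of the given preperiodic points has maximal height `R`; so there are
`k` different points `p_i` over a number field, one of them of height `R`, all of them and all
their images `q_i` of height at most `R`. Given the `p_i` and `q_i`, the coordinates `F_l` are
counted one after the other: `F_l (p_i)` is prescribed for all `i` except those for which `l` is the
first non zero coordinate of `q_i`. The number of forms which vanish at `s` given points is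
`O(H^(M - s))`, and it is `O(H^(M - s) R^(-B))` if the point of height `R` is among them: if `R` is
at most a fixed power of `H`, by a choice of linear forms `U, V` with small coefficients such that
`U / V` separates the points and has large height at the high one, by packing with the forms in
`U, V`, and by counting the integral polynomials in one variable which vanish at `s` points
(maximal minor, height of a root); if `R` is larger, by the existence of a system without common
zero which does not increase the height (`AlmostAllEndomorphisms`). Then the bounds are summed over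
all `p_i, q_i`. The lower bound: `F_1, ..., F_N` vanish at the points `(1 : 2 i : 0 : ... : 0)`, and
the system is `(x_0^d, ..., x_N^d)` modulo `2`.
-/

set_option autoImplicit false

open MvPolynomial

namespace Pool.Agent.Results.MP_13bc7b_nt.ManyPreperiodicPoints

/-- The systems of `N + 1` forms of degree `d` in `N + 1` variables with integral coefficients of
absolute value at most `H`. -/
def Sys (N d H : ℕ) : Set (Fin (N + 1) → MvPolynomial (Fin (N + 1)) ℤ) :=
  {F | ∀ i, (F i).IsHomogeneous d ∧ ∀ m, |(F i).coeff m| ≤ H}

/-- The self-map of `ℂ^(N+1)` given by the system `F`. -/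
noncomputable def act {N : ℕ} (F : Fin (N + 1) → MvPolynomial (Fin (N + 1)) ℤ)
    (x : Fin (N + 1) → ℂ) : Fin (N + 1) → ℂ :=
  fun i => aeval x (F i)

/-- `F` defines an endomorphism of `P^N`: no common zero in `ℂ^(N+1)` except `0`. -/
def IsMorphism {N : ℕ} (F : Fin (N + 1) → MvPolynomial (Fin (N + 1)) ℤ) : Prop :=
  ∀ x : Fin (N + 1) → ℂ, act F x = 0 → x = 0

/-- `F` has at least `k` preperiodic points of degree at most `D`: there are `k` non zero, pairwise
not proportional vectors, each of them with coordinates in some number field of degree at most `D`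
(the fields may be different), such that each of them is preperiodic: two different iterates of it
are equal, i.e. proportional as vectors. -/
def HasPreperiodicPoints {N : ℕ} (D k : ℕ) (F : Fin (N + 1) → MvPolynomial (Fin (N + 1)) ℤ) :
    Prop :=
  ∃ x : Fin k → Fin (N + 1) → ℂ, (∀ i, x i ≠ 0) ∧ (∀ i j, i ≠ j → ∀ c : ℂ, x i ≠ c • x j) ∧
    ∀ i, (∃ K : IntermediateField ℚ ℂ, FiniteDimensional ℚ K ∧ Module.finrank ℚ K ≤ D ∧
        ∀ l, x i l ∈ K) ∧
      ∃ m n : ℕ, m < n ∧ ∃ c : ℂ, c ≠ 0 ∧ (act F)^[n] (x i) = c • (act F)^[m] (x i)

open Pool.Agent.W276.GE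

theorem act_eq {N d H : ℕ} {F : Fin (N + 1) → MvPolynomial (Fin (N + 1)) ℤ}
    (hF : F ∈ PS N d H) : act F = Pool.Agent.R414.EA.fm ℂ (fun i => cf d (F i)) := by
  funext x i
  exact aeval_eq_ev (hF i).1 x

theorem isMorphism_iff {N d H : ℕ} {F : Fin (N + 1) → MvPolynomial (Fin (N + 1)) ℤ}
    (hF : F ∈ PS N d H) : IsMorphism F ↔ NoZero fun i => cf d (F i) := by
  unfold IsMorphism NoZero
  refine forall_congr' fun x => ?_
  rw [act_eq hF, funext_iff]
  rfl

theorem count_eq (N D k d H : ℕ) :
    ({F | F ∈ Sys N d H ∧ IsMorphism F ∧ HasPreperiodicPoints D k F} :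
      Set (Fin (N + 1) → MvPolynomial (Fin (N + 1)) ℤ)).ncard =
    ({F | F ∈ Fb (N + 1) d H ∧ (NoZero F ∧ Pool.Agent.R414.EA.ManyC D k F)} :
      Set (Fin (N + 1) → E (N + 1) d → ℤ)).ncard := by
  refine ncard_PS N d H (fun F => IsMorphism F ∧ HasPreperiodicPoints D k F)
    (fun G => NoZero G ∧ Pool.Agent.R414.EA.ManyC D k G) fun F hF => ?_
  rw [isMorphism_iff hF]
  unfold HasPreperiodicPoints Pool.Agent.R414.EA.ManyC
  rw [act_eq hF]

/-- **The endomorphisms of `P^N` with at least `k` preperiodic points of degree at most `D`.** For
all `N, D, k ≥ 1` and all `d ≥ d₀(N, D, k)` the number of the systems of forms of degree `d` with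
coefficients of absolute value at most `H` which define endomorphisms of `P^N` with at least `k`
preperiodic points of degree at most `D` over `ℚ` is at most `C H^(Q - k N)`,
`Q = (N + 1) (N + d choose N)`, and already the number of those with at least `k` rational
preperiodic points is at least `c H^(Q - k N)`, `c > 0`, for all large `H`. -/
theorem result (N D k : ℕ) (hN : 1 ≤ N) (hD : 1 ≤ D) (hk : 1 ≤ k) : ∃ d₀ : ℕ, ∀ d, d₀ ≤ d →
    ∃ (c C : ℝ) (H₀ : ℕ), 0 < c ∧ 0 < C ∧
      (∀ H : ℕ, 1 ≤ H →
        (({F | F ∈ Sys N d H ∧ IsMorphism F ∧ HasPreperiodicPoints D k F} :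
          Set (Fin (N + 1) → MvPolynomial (Fin (N + 1)) ℤ)).ncard : ℝ) ≤
            C * (H : ℝ) ^ ((N + 1) * (N + d).choose N - k * N)) ∧
      (∀ H : ℕ, H₀ ≤ H → c * (H : ℝ) ^ ((N + 1) * (N + d).choose N - k * N) ≤
        (({F | F ∈ Sys N d H ∧ IsMorphism F ∧ HasPreperiodicPoints 1 k F} :
          Set (Fin (N + 1) → MvPolynomial (Fin (N + 1)) ℤ)).ncard : ℝ)) := by
  obtain ⟨d₀, hd₀⟩ := Pool.Agent.R414.EA.final N D k hN hD hk
  refine ⟨d₀, fun d hd => ?_⟩
  obtain ⟨c, C, H₀, hc, hC, h1, h2⟩ := hd₀ d hd
  refine ⟨c, C, H₀, hc, hC, fun H hH => ?_, fun H hH => ?_⟩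
  · rw [count_eq]
    exact h1 H hH
  · rw [count_eq]
    exact h2 H hH

end Pool.Agent.Results.MP_13bc7b_nt.ManyPreperiodicPoints
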