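import Pool.Agent.R323.PN.G

/-!
# MP_13bc7b_nt: uniform boundedness in every dimension for the symmetric powers of all rational maps
# outside few conjugacy classes

Let `f` be an endomorphism of the projective line of degree `d ≥ 2` over a number field `K`.  Its
`n`-th symmetric power is the endomorphism of degree `d` of `Pⁿ = Sym^n P¹` over `K` which maps the
binary form with the zeros `p_1, …, p_n` to the form with the zeros `f(p_1), …, f(p_n)`; for `n = 1` it
is `f` itself.  For all `D`, `B ≥ 1`, `d ≥ 2` and `ε > 0` there are `M` and `C` such that for every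
`X ≥ 1` the following holds.  Consider all pairs `(K, f)` of a number field `K` of degree at most `D` and
an endomorphism `f` of degree `d` of the projective line over `K` of height at most `X` such that for some
`n` with `1 ≤ n ≤ B` the `n`-th symmetric power of `f` has more than `M` preperiodic points in `Pⁿ(K)`, or
`f` has more than `M` preperiodic points `P` over the algebraic numbers with `[K(P) : K] ≤ B`.  At most
`C X ^ ε` such pairs are pairwise not conjugate by coordinate changes of degree at most `(D B) ^ 2`, hence
they lie in at most `C X ^ ε` conjugacy classes over the algebraic numbers.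

Proof.  The zeros of a form over `K` of degree `n` have degree at most `n` over `K`, and the zeros of a
preperiodic form are preperiodic points of `f`, so the assertion about the symmetric powers follows from
that about the points of degree at most `B` over `K`.  The number of the points with a short orbit is
bounded, so among many preperiodic points there is one with a long orbit, which lies in the projective
line over one extension of `K` of degree at most `B`; its height is bounded by that of `f`, and the
theorem for the points over number fields of degree at most `D B` applies.  For the proof of the latter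
see the file `FewExceptionalClasses` of the problem MP_90787a_nt.
-/

set_option autoImplicit false

namespace Pool.Agent.Results.MP_13bc7b_nt.SymmetricPowersFewClasses

/-- The algebraic numbers; all number fields are subfields of this field. -/
abbrev Qbar : Type := AlgebraicClosure ℚ

/-- The value at `v` of the pair `F` of binary forms of degree `d`: `F i j` is the coefficient of
`x ^ j y ^ (d - j)` in the `i`-th form. -/
def act {d : ℕ} {K : Type} [Field K] (F : Fin 2 → Fin (d + 1) → K) (v : Fin 2 → K) : Fin 2 → K :=
  fun i => ∑ j : Fin (d + 1), F i j * v 0 ^ (j : ℕ) * v 1 ^ (d - (j : ℕ))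

/-- The height over `K` (relative, multiplicative) of the point of projective space given by the
coefficients. -/
noncomputable def height {d : ℕ} {K : Type} [Field K] [NumberField K]
    (F : Fin 2 → Fin (d + 1) → K) : ℝ :=
  Height.mulHeight (fun p : Fin 2 × Fin (d + 1) => F p.1 p.2)

/-- A rational map over a number field: a number field `K` inside the algebraic numbers and two binary
forms of degree `d` over `K`. -/
structure Pair (d : ℕ) where
  /-- the field -/
  K : IntermediateField ℚ Qbar
  /-- it is a number field -/
  [numberField : NumberField K]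
  /-- the coefficients -/
  F : Fin 2 → Fin (d + 1) → K

attribute [instance] Pair.numberField

variable {d : ℕ}

/-- The pair of forms as a pair of forms over the algebraic numbers. -/
def Pair.ext (φ : Pair d) : Fin 2 → Fin (d + 1) → Qbar := fun i j => (φ.F i j : Qbar)

/-- The two forms have no common zero in the projective line over the algebraic numbers: they define
an endomorphism of the projective line of degree `d` over `K`. -/
def Pair.IsEndomorphism (φ : Pair d) : Prop := ∀ v : Fin 2 → Qbar, act φ.ext v = 0 → v = 0

/-- The set of the preperiodic points `P` in the projective line over the algebraic numbers with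
`[K(P) : K] ≤ B`: the `n`-th and the `m`-th iterate at `P` agree for some `m < n`, and `P` has
coordinates in an extension of `K` of degree at most `B`. -/
def Pair.preperiodicOfDegree (φ : Pair d) (B : ℕ) : Set (Projectivization Qbar (Fin 2 → Qbar)) :=
  {P | (∃ m n : ℕ, m < n ∧ ∃ c : Qbar, c ≠ 0 ∧
      (act φ.ext)^[n] P.rep = c • (act φ.ext)^[m] P.rep) ∧
    ∃ E : IntermediateField ℚ Qbar, φ.K ≤ E ∧ FiniteDimensional ℚ E ∧
      Module.finrank ℚ E ≤ B * Module.finrank ℚ φ.K ∧ ∃ w : Fin 2 → Qbar, (∀ l, w l ∈ E) ∧
      ∃ c : Qbar, c ≠ 0 ∧ P.rep = c • w}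

/-- The product of the linear forms `p_{i,1} X - p_{i,0} Y` for `i = 1, …, n`, dehomogenised by `Y = 1`:
the binary form of degree `n` with the zeros `p_1, …, p_n` in the projective line. -/
noncomputable def form {n : ℕ} (p : Fin n → Fin 2 → Qbar) : Polynomial Qbar :=
  ∏ i, (Polynomial.C (p i 1) * Polynomial.X - Polynomial.C (p i 0))

/-- The point of `n`-dimensional projective space with the zeros `p_1, …, p_n`: the vector of the
coefficients of the form, where the `j`-th one is that of `X ^ j Y ^ (n - j)`. -/
noncomputable def point {n : ℕ} (p : Fin n → Fin 2 → Qbar) : Fin (n + 1) → Qbar :=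
  fun j => (form p).coeff j

/-- The tuple `Φ` of forms of degree `d` over `K` is the `n`-th symmetric power of `f`, as an
endomorphism of `n`-dimensional projective space: it takes the form with the zeros `p_1, …, p_n` to the
form with the zeros `f(p_1), …, f(p_n)`. -/
def Pair.IsSymmetricPower (φ : Pair d) {n : ℕ} (Φ : Fin (n + 1) → MvPolynomial (Fin (n + 1)) φ.K) :
    Prop :=
  (∀ j, (Φ j).IsHomogeneous d) ∧ ∀ (p : Fin n → Fin 2 → Qbar) (j : Fin (n + 1)),
    MvPolynomial.aeval (point p) (Φ j) = point (fun i => act φ.ext (p i)) j

/-- The value of the tuple `Φ` at a vector over `K`. -/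
noncomputable def value {n : ℕ} {K : Type} [Field K]
    (Φ : Fin (n + 1) → MvPolynomial (Fin (n + 1)) K) (v : Fin (n + 1) → K) : Fin (n + 1) → K :=
  fun j => MvPolynomial.eval v (Φ j)

/-- The set of the `K`-rational preperiodic points of the tuple `Φ` in `n`-dimensional projective
space. -/
def preperiodic {n : ℕ} {K : Type} [Field K] (Φ : Fin (n + 1) → MvPolynomial (Fin (n + 1)) K) :
    Set (Projectivization K (Fin (n + 1) → K)) :=
  {P | ∃ m k : ℕ, m < k ∧ ∃ c : K, c ≠ 0 ∧ (value Φ)^[k] P.rep = c • (value Φ)^[m] P.rep}

/-- The field has degree at most `D`, the map has height at most `X`, and for some `n` with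
`1 ≤ n ≤ B` the `n`-th symmetric power has more than `M` preperiodic points in `Pⁿ(K)`, or there are more
than `M` preperiodic points of degree at most `B` over `K`. -/
def Pair.Exceptional (D B M X : ℕ) (φ : Pair d) : Prop :=
  Module.finrank ℚ φ.K ≤ D ∧ height φ.F ≤ X ∧
    ((∃ n : ℕ, 1 ≤ n ∧ n ≤ B ∧ ∃ Φ : Fin (n + 1) → MvPolynomial (Fin (n + 1)) φ.K,
      φ.IsSymmetricPower Φ ∧ (M : ℕ∞) < (preperiodic Φ).encard) ∨
    (M : ℕ∞) < (φ.preperiodicOfDegree B).encard)

/-- The endomorphisms are conjugate by a coordinate change over a number field of degree at most `e`: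
for an invertible matrix `A` with entries in such a field we have `G (A v) = A (F v)` in the projective
line over the algebraic numbers for all `v`. -/
def Conjugate (e : ℕ) (φ ψ : Pair d) : Prop :=
  ∃ E : IntermediateField ℚ Qbar, FiniteDimensional ℚ E ∧ Module.finrank ℚ E ≤ e ∧
    ∃ A : Matrix (Fin 2) (Fin 2) Qbar, (∀ i j, A i j ∈ E) ∧ A.det ≠ 0 ∧
      ∀ v : Fin 2 → Qbar, v ≠ 0 → ∃ c : Qbar, c ≠ 0 ∧
        act ψ.ext (A.mulVec v) = c • A.mulVec (act φ.ext v)

/-- **Few exceptional conjugacy classes in every dimension.**  For all `D`, `B`, `d ≥ 2` and `ε > 0` there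
are `M` and `C` such that for `X ≥ 1` every finite set of pairs `(K, f)` of a number field `K` of degree
at most `D` and an endomorphism `f` of degree `d` of the projective line over `K` of height at most `X`
which are exceptional (the `n`-th symmetric power of `f`, an endomorphism of degree `d` of `Pⁿ` over `K`,
has more than `M` preperiodic points in `Pⁿ(K)` for some `1 ≤ n ≤ B`, or `f` has more than `M` preperiodic
points of degree at most `B` over `K`), such that different pairs are not conjugate by a coordinate change
over a number field of degree at most `(D B) ^ 2`, has at most `C X ^ ε` elements. -/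
theorem result (D B d : ℕ) (hd : 2 ≤ d) (ε : ℝ) (hε : 0 < ε) :
    ∃ (M : ℕ) (C : ℝ), ∀ X : ℕ, 1 ≤ X → ∀ S : Finset (Pair d),
      (∀ φ ∈ S, φ.IsEndomorphism ∧ φ.Exceptional D B M X) →
      (∀ φ ∈ S, ∀ ψ ∈ S, φ ≠ ψ → ¬ Conjugate ((D * B) ^ 2) φ ψ) →
      (S.card : ℝ) ≤ C * (X : ℝ) ^ ε := by
  obtain ⟨M, C, h⟩ := Pool.Agent.R323.PN.mainB d D B hd ε hε
  refine ⟨(M + 1) ^ (B + 1), C, fun X hX S hS hconj => ?_⟩
  have h1 := h X hX S (fun φ => φ.1.K) (fun φ => φ.1.F) (fun φ => ?_) (fun φ ψ hne E hE hEf hc => ?_)
  · rwa [Fintype.card_coe] at h1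
  · obtain ⟨h2, h3, h4, h5⟩ := hS φ.1 φ.2
    refine Pool.Agent.R323.PN.hypB_of h3 h2 h4 ?_
    by_contra hcon
    push Not at hcon
    have hM1 : (M : ℕ∞) ≤ (((M + 1) ^ (B + 1) : ℕ) : ℕ∞) := by
      have : M ≤ (M + 1) ^ (B + 1) := (Nat.le_succ M).trans (Nat.le_self_pow (by omega) _)
      exact_mod_cast this
    rcases h5 with ⟨n, hn1, hnB, Φ, hΦ, h6⟩ | h6
    · have h7 := Pool.Agent.R323.PN.SS_le hn1 φ.1.K hnB h2 Φ hΦ.2 hcon
      have h8 : M ^ n ≤ (M + 1) ^ (B + 1) :=
        (Nat.pow_le_pow_left (Nat.le_succ M) n).trans (Nat.pow_le_pow_right (by omega) (by omega))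
      have h9 : ((M ^ n : ℕ) : ℕ∞) ≤ (((M + 1) ^ (B + 1) : ℕ) : ℕ∞) := by exact_mod_cast h8
      exact absurd (lt_of_lt_of_le h6 (h7.trans h9)) (lt_irrefl _)
    · exact absurd (lt_of_lt_of_le h6 (hcon.trans hM1)) (lt_irrefl _)
  · exact hconj φ.1 φ.2 ψ.1 ψ.2 (fun h6 => hne (Subtype.ext h6)) ⟨E, hE, hEf, hc⟩

end Pool.Agent.Results.MP_13bc7b_nt.SymmetricPowersFewClasses
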